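import Pool.Agent.Helper5.KPA.StN

/-!
# Project KP, module AJC: the Jacobian criterion

If the Jacobian determinant vanishes there is a nonzero derivation of the polynomial ring which kills
the polynomials `a i`; it kills everything which is algebraic over them, so everything.
-/

set_option autoImplicit false

namespace Pool.Agent.Helper10.KPA

open Pool.Agent.Helper5.KPA Pool.Agent.Helper52.KP MvPolynomial

/-- A derivation over `A` kills the algebraic elements. -/
theorem der_alg {A S : Type} [CommRing A] [IsDomain A] [CharZero A] [CommRing S] [IsDomain S]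
    [Algebra A S] (hinj : Function.Injective (algebraMap A S)) (D : Derivation A S S) (x : S) :
    ∀ n : ℕ, ∀ p : Polynomial A, p.natDegree = n → p ≠ 0 → Polynomial.aeval x p = 0 → D x = 0 := by
  intro n
  induction n using Nat.strong_induction_on with
  | _ n ih =>
    intro p hpn hp0 hp
    have h1 : D (Polynomial.aeval x p) = Polynomial.aeval x (Polynomial.derivative p) • D x :=
      D.map_aeval p x
    rw [hp, map_zero, smul_eq_mul] at h1
    rcases mul_eq_zero.mp h1.symm with h2 | h2
    · rcases Nat.eq_zero_or_pos n with hn | hn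
      · rw [hn] at hpn
        rw [Polynomial.eq_C_of_natDegree_eq_zero hpn, Polynomial.aeval_C] at hp
        have h3 : p.coeff 0 = 0 := hinj (by rw [hp, map_zero])
        rw [Polynomial.eq_C_of_natDegree_eq_zero hpn, h3, Polynomial.C_0] at hp0
        exact absurd rfl hp0
      · have h4 : (Polynomial.derivative p).natDegree < n := by
          rw [← hpn]
          exact Polynomial.natDegree_derivative_lt (by omega)
        have h5 : Polynomial.derivative p ≠ 0 := by
          intro h6
          have h7 := Polynomial.derivative_eq_zero.mp h6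
          omega
        exact ih _ h4 _ rfl h5 h2
    · exact h2

theorem hAJC : StAJC := by
  intro M a ha hdet
  unfold jac at hdet
  obtain ⟨v, hv, h0⟩ := Matrix.exists_mulVec_eq_zero_iff.mpr hdet
  let D : Derivation ℂ (MvPolynomial (Fin M) ℂ) (MvPolynomial (Fin M) ℂ) := ∑ j, v j • pderiv j
  have hD : ∀ p, D p = ∑ j, v j * pderiv j p := by
    intro p
    have h1 : D p = Derivation.coeFnAddMonoidHom (∑ j, (v j • pderiv j :
        Derivation ℂ (MvPolynomial (Fin M) ℂ) (MvPolynomial (Fin M) ℂ))) p := rfl
    rw [h1, map_sum, Finset.sum_apply]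
    rfl
  have hDa : ∀ i, D (a i) = 0 := by
    intro i
    rw [hD]
    have h1 := congrFun h0 i
    rw [Matrix.mulVec, Pi.zero_apply, dotProduct] at h1
    rw [← h1]
    exact Finset.sum_congr rfl fun j _ => mul_comm _ _
  have hDX : ∀ l, D (X l) = v l := by
    intro l
    rw [hD, Finset.sum_eq_single l]
    · rw [pderiv_X_self, mul_one]
    · intro j _ hj
      rw [pderiv_X_of_ne (Ne.symm hj), mul_zero]
    · intro h
      exact absurd (Finset.mem_univ l) h
  have hDA : ∀ p ∈ Algebra.adjoin ℂ (Set.range a), D p = 0 := by
    intro p hp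
    induction hp using Algebra.adjoin_induction with
    | mem x hx =>
      obtain ⟨i, rfl⟩ := hx
      exact hDa i
    | algebraMap r => exact D.map_algebraMap r
    | add x y _ _ hx hy => rw [map_add, hx, hy, add_zero]
    | mul x y _ _ hx hy => rw [D.leibniz, hx, hy, smul_zero, smul_zero, add_zero]
  let D' : Derivation (Algebra.adjoin ℂ (Set.range a)) (MvPolynomial (Fin M) ℂ)
      (MvPolynomial (Fin M) ℂ) := Derivation.mk'
    { toFun := D
      map_add' := fun x y => map_add D x y
      map_smul' := fun c x => by
        have h1 : c • x = (c : MvPolynomial (Fin M) ℂ) * x := rfl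
        rw [h1, D.leibniz, hDA c c.2, smul_zero, add_zero]
        rfl } (fun x y => D.leibniz x y)
  have hal : ∀ x : MvPolynomial (Fin M) ℂ, IsAlgebraic (Algebra.adjoin ℂ (Set.range a)) x := by
    have h1 : IsTranscendenceBasis ℂ a := by
      refine ha.isTranscendenceBasis_of_trdeg_le_of_finite ?_
      rw [MvPolynomial.trdeg_of_isDomain]
      simp
    have := h1.isAlgebraic
    exact fun x => Algebra.IsAlgebraic.isAlgebraic x
  apply hv
  funext l
  obtain ⟨p, hp0, hp⟩ := hal (X l)
  have h2 := der_alg (A := Algebra.adjoin ℂ (Set.range a)) (S := MvPolynomial (Fin M) ℂ)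
    Subtype.val_injective D' (X l) p.natDegree p rfl hp0 hp
  rw [Pi.zero_apply, ← hDX l]
  exact h2

end Pool.Agent.Helper10.KPA
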